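import Pool.Agent.RTC.All5

/-!
# MP_84cf48_an: pointwise comparison for the Robin torsion problem: `N = 3`, `β R ≥ 1/2`;
`N ≥ 4`, `β R ≥ N/2 - 3/4`
-/

set_option autoImplicit false

namespace Pool.Agent.Results.MP_84cf48_an.LargeRobinParameter

open MeasureTheory Set Filter Topology

/-- Euclidean space of dimension `N`. -/
abbrev E (N : ℕ) := EuclideanSpace ℝ (Fin N)

/-- The divergence of a vector field. -/
noncomputable def divergence {N : ℕ} (X : E N → E N) (x : E N) : ℝ :=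
  ∑ i : Fin N, (fderiv ℝ X x (EuclideanSpace.single i (1 : ℝ))) i

/-- `σ` is a finite measure on the boundary of `Ω` for which the Gauss-Green bound
`|∫_Ω div X| ≤ ∫ |X| dσ` holds for all `C^1` vector fields `X`
(for instance surface measure, when `Ω` is a bounded Lipschitz domain). -/
structure IsBoundaryMeasure {N : ℕ} (Ω : Set (E N)) (σ : Measure (E N)) : Prop where
  finite : σ univ < ⊤
  supp : σ (frontier Ω)ᶜ = 0
  gauss : ∀ X : E N → E N, ContDiff ℝ 1 X → |∫ x in Ω, divergence X x| ≤ ∫ x, ‖X x‖ ∂σ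

/-- `u` (with weak gradient `g` and trace `w`) is a weak solution in `H^1(Ω)` of
`-Δ u = 1` in `Ω`, `∂_ν u + β u = 0` on the boundary: `u, g` are the limits in `L²(Ω)` of `C^1`
functions on the whole space and of their gradients, `w` is the limit in `L²(σ)` of the same
functions, and `∫_Ω g · ∇φ + β ∫ w φ dσ = ∫_Ω φ` for every `C^1` function `φ`. -/
structure IsRobinSolution {N : ℕ} (Ω : Set (E N)) (σ : Measure (E N)) (β : ℝ)
    (u : E N → ℝ) (g : E N → E N) (w : E N → ℝ) : Prop where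
  u_mem : MemLp u 2 (volume.restrict Ω)
  g_mem : MemLp g 2 (volume.restrict Ω)
  w_mem : MemLp w 2 σ
  approx : ∃ U : ℕ → E N → ℝ, (∀ k, ContDiff ℝ 1 (U k)) ∧
    Tendsto (fun k => ∫ x in Ω, (U k x - u x) ^ 2) atTop (𝓝 0) ∧
    Tendsto (fun k => ∫ x in Ω, ‖gradient (U k) x - g x‖ ^ 2) atTop (𝓝 0) ∧
    Tendsto (fun k => ∫ x, (U k x - w x) ^ 2 ∂σ) atTop (𝓝 0)
  weak : ∀ φ : E N → ℝ, ContDiff ℝ 1 φ →
    (∫ x in Ω, fderiv ℝ φ x (g x)) + β * ∫ x, w x * φ x ∂σ = ∫ x in Ω, φ x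

/-- The solution `v(x) = (R² - |x|²)/(2N) + R/(Nβ)` of the Robin torsion problem in the ball of
radius `R`. -/
noncomputable def v (N : ℕ) (β R : ℝ) (x : E N) : ℝ :=
  (R ^ 2 - ‖x‖ ^ 2) / (2 * N) + R / (N * β)

/-- The Schwarz rearrangement `u^♯(x) = inf {t ≥ 0 : |{u > t}| < |ball of radius |x||}`. -/
noncomputable def rearrangement {N : ℕ} (Ω : Set (E N)) (u : E N → ℝ) (x : E N) : ℝ :=
  sInf {t : ℝ | 0 ≤ t ∧ volume (Ω ∩ {z | t < u z}) < volume (Metric.ball (0 : E N) ‖x‖)}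

/-- Let `Ω` be a bounded open set with the volume of the ball of radius `R`, and
`β R ≥ N/2 - 3/4`, or `N = 3` and `β R ≥ 1/2`. The solution `u` of the Robin torsion problem
satisfies `|{u > t}| ≤ |{v > t}|` for every `t` and `u^♯(x) ≤ v(x)` for every `x ≠ 0` in the
ball. -/
theorem result (N : ℕ) (hN : 3 ≤ N) (Ω : Set (E N)) (hΩ : IsOpen Ω)
    (hb : Bornology.IsBounded Ω) (σ : Measure (E N)) (hσ : IsBoundaryMeasure Ω σ) (β R : ℝ)
    (hβ : 0 < β) (hR : 0 < R) (hvol : volume Ω = volume (Metric.ball (0 : E N) R))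
    (hβR : (N : ℝ) - 3 / 2 ≤ 2 * (β * R) ∨ (N = 3 ∧ 1 ≤ 2 * (β * R)))
    (u : E N → ℝ) (g : E N → E N) (w : E N → ℝ) (hu : IsRobinSolution Ω σ β u g w) :
    (∀ t : ℝ, volume (Ω ∩ {x | t < u x}) ≤
      volume (Metric.ball (0 : E N) R ∩ {x | t < v N β R x})) ∧
    ∀ x ∈ Metric.ball (0 : E N) R, x ≠ 0 → rearrangement Ω u x ≤ v N β R x := by
  have hσ' : RTC.IsBoundaryMeasure Ω σ := ⟨hσ.finite, hσ.supp, hσ.gauss⟩
  have hu' : RTC.IsRobin Ω σ β u g w := ⟨hu.u_mem, hu.g_mem, hu.w_mem, hu.approx, hu.weak⟩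
  exact ⟨fun t => RTC.lev5 N hN Ω σ β R u g w hβ hR hβR hΩ hb hvol hσ' hu' t,
    RTC.fin5 N hN Ω σ β R u g w hβ hR hβR hΩ hb hvol hσ' hu'⟩

end Pool.Agent.Results.MP_84cf48_an.LargeRobinParameter
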